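import Pool.Agent.helper12.DD.Spec2

/-!
# MP_baa4d7_al, project dw:, module TOP

`O_p(G^T) = 1` if `O_p(G) = 1`.
-/

set_option autoImplicit false

open Pool.Agent.helper49.Blk

namespace Pool.Agent.DD

theorem TOP : TOP_stmt := by
  intro G T _ _ p h
  refine ⟨⟨bot_le, IsPGroup.of_bot, ?_⟩, ?_⟩
  · intro x _
    rw [Subgroup.mem_normalizer_iff]
    intro y
    simp only [Subgroup.mem_bot]
    constructor
    · rintro rfl
      simp
    · intro hy
      have h1 := congrArg (fun z => x⁻¹ * z * x) hy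
      simpa [mul_assoc] using h1
  · rintro Q ⟨-, hp, hn⟩
    have key : ∀ t : T, Q.map (Pi.evalMonoidHom (fun _ => G) t) ≤ ⊥ := by
      intro t
      apply h.2
      refine ⟨le_top, hp.map _, ?_⟩
      intro x _
      rw [Subgroup.mem_normalizer_iff]
      have hx : (fun _ => x : T → G) ∈ Subgroup.normalizer Q := hn (Subgroup.mem_top _)
      have hx' : (fun _ => x⁻¹ : T → G) ∈ Subgroup.normalizer Q := hn (Subgroup.mem_top _)
      rw [Subgroup.mem_normalizer_iff] at hx hx'
      intro y
      constructor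
      · rintro ⟨z, hz, rfl⟩
        refine ⟨_, (hx z).1 hz, ?_⟩
        simp
      · rintro ⟨z, hz, hzy⟩
        refine ⟨_, (hx' z).1 hz, ?_⟩
        have hzy' : z t = x * y * x⁻¹ := hzy
        simp [hzy', mul_assoc]
    intro f hf
    rw [Subgroup.mem_bot]
    funext t
    have h1 : f t ∈ (⊥ : Subgroup G) := key t ⟨f, hf, rfl⟩
    simpa using h1

end Pool.Agent.DD
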